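import Pool.Agent.SKQ.Stmts

/-!
# SKQ, row NL0: the integral of the Jacobian determinant of a compactly supported map is zero
-/

set_option autoImplicit false

namespace Pool.Agent.SKQ.H39

open Metric Set Filter Topology MeasureTheory Polynomial
open scoped ENNReal NNReal
open Helper22QC Pool.Agent.SKQ

/-- the determinant of `1 + t A` as a polynomial in `t` -/
noncomputable def dpo {n : ℕ} (A : Matrix (Fin n) (Fin n) ℝ) : ℝ[X] :=
  Matrix.det ((X : ℝ[X]) • A.map C + (1 : Matrix (Fin n) (Fin n) ℝ).map C)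

theorem eval_dpo {n : ℕ} (A : Matrix (Fin n) (Fin n) ℝ) (t : ℝ) :
    (dpo A).eval t = (1 + t • A).det := by
  have h := (Polynomial.evalRingHom t).map_det
    ((X : ℝ[X]) • A.map C + (1 : Matrix (Fin n) (Fin n) ℝ).map C)
  rw [Polynomial.coe_evalRingHom] at h
  unfold dpo
  rw [h]
  congr 1
  ext i j
  simp only [RingHom.mapMatrix_apply, Matrix.map_apply, Matrix.add_apply, Matrix.smul_apply,
    smul_eq_mul, Polynomial.coe_evalRingHom, Polynomial.eval_add, Polynomial.eval_mul,
    Polynomial.eval_X, Polynomial.eval_C]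
  ring

/-- the determinant as a combination of determinants near the identity -/
theorem det_comb {n : ℕ} (hn : 1 ≤ n) {t0 : ℝ} (ht : 0 < t0) :
    ∃ v w : Fin (n + 1) → ℝ, (∀ j, |v j| ≤ t0) ∧ ∑ j, w j = 0 ∧
      ∀ M : Mt n, M.det = ∑ j, w j * (ContinuousLinearMap.id ℝ (E n) + v j • M).det := by
  obtain ⟨v, hv⟩ : ∃ v : Fin (n + 1) → ℝ, v = fun j : Fin (n + 1) =>
    t0 * ((j : ℕ) : ℝ) / (n + 1) := ⟨_, rfl⟩
  have hn0 : (0 : ℝ) < n + 1 := by positivity
  have hinj : Set.InjOn v (Finset.univ : Finset (Fin (n + 1))) := by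
    intro a _ b _ hab
    rw [hv] at hab
    simp only at hab
    rw [div_left_inj' hn0.ne'] at hab
    have h1 := mul_left_cancel₀ ht.ne' hab
    exact Fin.ext (by exact_mod_cast h1)
  have hcard : (Finset.univ : Finset (Fin (n + 1))).card = n + 1 := by simp
  obtain ⟨w, hw⟩ : ∃ w : Fin (n + 1) → ℝ,
    w = fun i => (∏ j ∈ Finset.univ.erase i, (v i - v j))⁻¹ := ⟨_, rfl⟩
  have key : ∀ P : ℝ[X], P.natDegree ≤ n → P.coeff n = ∑ j, w j * P.eval (v j) := by
    intro P hP
    have h1 := Lagrange.coeff_eq_sum hinj (P := P) (by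
      rw [hcard]
      exact (Polynomial.degree_le_natDegree).trans_lt (by exact_mod_cast Nat.lt_succ_of_le hP))
    rw [hcard, Nat.add_sub_cancel] at h1
    rw [h1]
    refine Finset.sum_congr rfl fun j _ => ?_
    rw [hw, div_eq_mul_inv, mul_comm]
  refine ⟨v, w, fun j => ?_, ?_, fun M => ?_⟩
  · have hj : ((j : ℕ) : ℝ) ≤ n + 1 := by
      have : (j : ℕ) ≤ n + 1 := j.2.le
      exact_mod_cast this
    rw [hv]
    simp only
    rw [abs_of_nonneg (by positivity), div_le_iff₀ hn0]
    exact mul_le_mul_of_nonneg_left hj ht.le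
  · have h1 := key 1 (by rw [Polynomial.natDegree_one]; exact Nat.zero_le _)
    rw [Polynomial.coeff_one, if_neg (by omega)] at h1
    simp only [Polynomial.eval_one, mul_one] at h1
    exact h1.symm
  · obtain ⟨A, hA⟩ : ∃ A : Matrix (Fin n) (Fin n) ℝ,
      A = LinearMap.toMatrix (bs n) (bs n) (M : E n →ₗ[ℝ] E n) := ⟨_, rfl⟩
    have h1 := key (dpo A) (by
      have := Polynomial.natDegree_det_X_add_C_le A (1 : Matrix (Fin n) (Fin n) ℝ)
      rwa [Fintype.card_fin] at this)
    have h2 : (dpo A).coeff n = A.det := by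
      have := Polynomial.coeff_det_X_add_C_card A (1 : Matrix (Fin n) (Fin n) ℝ)
      rwa [Fintype.card_fin] at this
    have h3 : A.det = M.det := by
      rw [hA, LinearMap.det_toMatrix]
    have h4 : ∀ t : ℝ, (dpo A).eval t = (ContinuousLinearMap.id ℝ (E n) + t • M).det := by
      intro t
      rw [eval_dpo]
      have h5 : 1 + t • A = LinearMap.toMatrix (bs n) (bs n)
          ((ContinuousLinearMap.id ℝ (E n) + t • M : Mt n) : E n →ₗ[ℝ] E n) := by
        rw [hA, ContinuousLinearMap.toLinearMap_add, ContinuousLinearMap.toLinearMap_smul, map_add, map_smul]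
        congr 1
        exact (LinearMap.toMatrix_id (bs n)).symm
      rw [h5, LinearMap.det_toMatrix]
    rw [← h3, ← h2, h1]
    exact Finset.sum_congr rfl fun j _ => by rw [h4]

theorem nl0 : NL0Stmt := by
  intro n g hn hg hc
  have hg1 : ContDiff ℝ 1 g := hg.of_le (by exact_mod_cast le_top)
  obtain ⟨K, hK⟩ := ContDiff.lipschitzWith_of_hasCompactSupport hc hg1 one_ne_zero
  -- positivity of the determinant near the identity
  have hdet1 : (ContinuousLinearMap.id ℝ (E n)).det = 1 := by
    change LinearMap.det (LinearMap.id : E n →ₗ[ℝ] E n) = 1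
    exact LinearMap.det_id
  have hev : ∀ᶠ M : Mt n in 𝓝 (ContinuousLinearMap.id ℝ (E n)), 0 < M.det :=
    (ContinuousLinearMap.continuous_det.tendsto _).eventually
      (lt_mem_nhds (by rw [hdet1]; exact one_pos))
  obtain ⟨δ, hδ, hδ'⟩ := Metric.eventually_nhds_iff.1 hev
  obtain ⟨t0, ht0⟩ : ∃ t0 : ℝ, t0 = min δ 1 / (2 * (K + 1)) := ⟨_, rfl⟩
  have hK0 : (0 : ℝ) ≤ K := K.2
  have hm0 : 0 < min δ 1 := lt_min hδ one_pos
  have ht00 : 0 < t0 := by rw [ht0]; positivity
  have htK : t0 * K < min δ 1 := by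
    have h1 : t0 * (2 * (K + 1)) = min δ 1 := by
      rw [ht0]
      field_simp
    nlinarith
  obtain ⟨v, w, hv, hw, hdet⟩ := det_comb hn ht00
  obtain ⟨R, hR⟩ := hc.isCompact.isBounded.subset_closedBall (0 : E n)
  obtain ⟨B, hB⟩ : ∃ B : Set (E n), B = closedBall 0 R := ⟨_, rfl⟩
  rw [← hB] at hR
  have hBc : IsCompact B := by rw [hB]; exact isCompact_closedBall _ _
  have hBm : MeasurableSet B := hBc.measurableSet
  have hg0 : ∀ x, x ∉ B → g x = 0 := fun x hx => image_eq_zero_of_notMem_tsupport
    fun h => hx (hR h)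
  have hdg0 : ∀ x, x ∉ B → fderiv ℝ g x = 0 := fun x hx =>
    image_eq_zero_of_notMem_tsupport fun h => hx (hR (tsupport_fderiv_subset ℝ h))
  have hdc : Continuous fun x => fderiv ℝ g x := hg1.continuous_fderiv one_ne_zero
  have hdiff : Differentiable ℝ g := hg1.differentiable one_ne_zero
  have hcont : ∀ t : ℝ, Continuous fun x =>
      (ContinuousLinearMap.id ℝ (E n) + t • fderiv ℝ g x).det := fun t =>
    ContinuousLinearMap.continuous_det.comp (continuous_const.add (hdc.const_smul t))
  -- the volume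
  have hvol : ∀ t : ℝ, |t| ≤ t0 →
      ∫ x in B, (ContinuousLinearMap.id ℝ (E n) + t • fderiv ℝ g x).det = volume.real B := by
    intro t ht
    have htKt : |t| * K < min δ 1 := (mul_le_mul_of_nonneg_right ht hK0).trans_lt htK
    obtain ⟨F, hF⟩ : ∃ F : E n → E n, F = fun x => x + t • g x := ⟨_, rfl⟩
    have hlip : ∀ x y, ‖g x - g y‖ ≤ K * ‖x - y‖ := by
      intro x y
      have := hK.dist_le_mul x y
      rwa [dist_eq_norm, dist_eq_norm] at this
    have happ : ApproximatesLinearOn F ((ContinuousLinearEquiv.refl ℝ (E n) :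
        E n ≃L[ℝ] E n) : E n →L[ℝ] E n) univ (‖t‖₊ * K) := by
      intro x _ y _
      have e1 : F x - F y - ((ContinuousLinearEquiv.refl ℝ (E n) : E n ≃L[ℝ] E n) :
          E n →L[ℝ] E n) (x - y) = t • (g x - g y) := by
        rw [hF]
        simp only [ContinuousLinearEquiv.coe_refl, ContinuousLinearMap.coe_id', id_eq]
        rw [smul_sub]
        abel
      rw [e1, norm_smul, NNReal.coe_mul, coe_nnnorm, mul_assoc]
      exact mul_le_mul_of_nonneg_left (hlip x y) (norm_nonneg _)
    have hcond : Subsingleton (E n) ∨ ‖t‖₊ * K < ‖(((ContinuousLinearEquiv.refl ℝ (E n)).symm :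
        E n ≃L[ℝ] E n) : E n →L[ℝ] E n)‖₊⁻¹ := by
      rcases subsingleton_or_nontrivial (E n) with h | h
      · exact Or.inl h
      · right
        have e1 : ‖(((ContinuousLinearEquiv.refl ℝ (E n)).symm :
            E n ≃L[ℝ] E n) : E n →L[ℝ] E n)‖₊ = 1 := by
          apply NNReal.eq
          rw [coe_nnnorm, NNReal.coe_one]
          exact ContinuousLinearMap.norm_id
        rw [e1, inv_one]
        have h2 : |t| * K < 1 := htKt.trans_le (min_le_right _ _)
        exact_mod_cast h2
    have hinj : Function.Injective F := by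
      have := happ.injOn hcond
      exact fun a b hab => this (mem_univ a) (mem_univ b) hab
    have hsurj : Function.Surjective F := happ.surjective hcond
    have hFoff : ∀ x, x ∉ B → F x = x := by
      intro x hx
      rw [hF]
      simp only
      rw [hg0 x hx, smul_zero, add_zero]
    have himg : F '' B = B := by
      ext y
      constructor
      · rintro ⟨x, hx, rfl⟩
        by_contra hy
        have h1 := hinj (hFoff (F x) hy)
        rw [h1] at hy
        exact hy hx
      · intro hy
        obtain ⟨x, rfl⟩ := hsurj y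
        refine ⟨x, ?_, rfl⟩
        by_contra hx
        rw [hFoff x hx] at hy
        exact hx hy
    have hder : ∀ x ∈ B, HasFDerivWithinAt F (ContinuousLinearMap.id ℝ (E n) + t • fderiv ℝ g x)
        B x := by
      intro x _
      rw [hF]
      exact ((hasFDerivAt_id x).add ((hdiff x).hasFDerivAt.const_smul t)).hasFDerivWithinAt
    have h1 := integral_image_eq_integral_abs_det_fderiv_smul (μ := volume) hBm hder
      hinj.injOn (fun _ => (1 : ℝ))
    rw [himg] at h1
    have h2 : ∫ _x in B, (1 : ℝ) = volume.real B := by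
      rw [setIntegral_const, smul_eq_mul, mul_one]
    rw [h2] at h1
    rw [h1]
    refine setIntegral_congr_fun hBm fun x _ => ?_
    simp only [smul_eq_mul, mul_one]
    rw [abs_of_pos]
    apply hδ'
    rw [dist_eq_norm, add_sub_cancel_left, norm_smul, Real.norm_eq_abs]
    have h3 : ‖fderiv ℝ g x‖ ≤ K := norm_fderiv_le_of_lipschitz ℝ hK
    exact (mul_le_mul_of_nonneg_left h3 (abs_nonneg t)).trans_lt
      (htKt.trans_le (min_le_left _ _))
  -- the integral over the ball
  have hint : ∫ x, (fderiv ℝ g x).det = ∫ x in B, (fderiv ℝ g x).det := by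
    rw [setIntegral_eq_integral_of_forall_compl_eq_zero]
    intro x hx
    rw [hdg0 x hx]
    change LinearMap.det (0 : E n →ₗ[ℝ] E n) = 0
    have : Module.finrank ℝ (E n) = n := finrank_euclideanSpace_fin
    rw [LinearMap.det_zero, this, zero_pow (by omega)]
  rw [hint]
  have h1 : ∀ x, (fderiv ℝ g x).det =
      ∑ j, w j * (ContinuousLinearMap.id ℝ (E n) + v j • fderiv ℝ g x).det := fun x => hdet _
  simp_rw [h1]
  rw [integral_finsetSum]
  · simp_rw [integral_const_mul]
    rw [Finset.sum_congr rfl fun j _ => by rw [hvol (v j) (hv j)], ← Finset.sum_mul, hw, zero_mul]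
  · intro j _
    exact ((hcont (v j)).continuousOn.integrableOn_compact hBc).const_mul _

end Pool.Agent.SKQ.H39
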